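import Mathlib
import Pool.Agent.H17.SRefN

namespace Pool.Agent.Results.MP_ff4a33_gt.Gap

open Set Pool.Agent.H17.SRef

theorem result (n : ℕ) (hn : 3 ≤ n) : ∃ C : Set (Fin n → ℝ), IsPolytope C ∧ ¬ IsSimplex C ∧
    (extremePoints ℝ C).ncard = n * (n - 1) ∧
    ∃ (ι : Type) (_ : Fintype ι) (Df : Set (ι → ℝ)) (f : (ι → ℝ) → Fin n → ℝ)
      (Dg : Set (stdSimplex ℝ ι → ℝ)) (g : (stdSimplex ℝ ι → ℝ) → C → ℝ),
      Refines (stdSimplex ℝ ι) C Df f Dg g ∧ Fintype.card ι = 2 * n := by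
  have : NeZero n := ⟨by omega⟩
  obtain ⟨Dg, g, h⟩ := Pool.Agent.H17.SRefN.cub_refines (n := n)
  exact ⟨_, Pool.Agent.H17.SRefN.cub_poly, Pool.Agent.H17.SRefN.cub_not hn,
    Pool.Agent.H17.SRefN.ext_card (by omega), _, inferInstance, _, _, Dg, g, h, by simp [two_mul]⟩

end Pool.Agent.Results.MP_ff4a33_gt.Gap
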